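import Mathlib

/-!
# Edge isoperimetry in lattice Cayley graphs: definitions
-/

namespace Pool.Agent.Lib.MP_602b76_co

variable {d : ℕ}

/-- The set of steps `𝒰 ∪ (-𝒰)`: `x` and `y` are adjacent in `G_𝒰` iff `y - x` is a step. -/
def steps (U : Finset (Fin d → ℤ)) : Finset (Fin d → ℤ) := U ∪ U.image (fun u => -u)

/-- The edge boundary of the finite set `S`: the number of edges of `G_𝒰` with exactly one
endpoint in `S` (an edge is counted through its endpoint in `S` and the step leading out). -/
def boundary (U S : Finset (Fin d → ℤ)) : ℕ :=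
  ((S ×ˢ steps U).filter (fun p => p.1 + p.2 ∉ S)).card

/-- `S` is edge-optimal: no set of the same size has a smaller edge boundary. -/
def Optimal (U S : Finset (Fin d → ℤ)) : Prop :=
  ∀ T : Finset (Fin d → ℤ), T.card = S.card → boundary U S ≤ boundary U T

end Pool.Agent.Lib.MP_602b76_co
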