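import Mathlib
import Pool.Agent.Lib.MP_602b76_co.Defs

/-!
# Optimal 4-sets are tetrahedra, optimal 6-sets contain no tetrahedron
-/

namespace Pool.Agent.Lib.MP_602b76_co

open Finset

variable {d : ℕ}

/-- indicator of adjacency -/
def adj (U : Finset (Fin d → ℤ)) (x y : Fin d → ℤ) : ℕ := if y - x ∈ steps U then 1 else 0

/-- twice the number of inner edges -/
def inner (U S : Finset (Fin d → ℤ)) : ℕ := ∑ x ∈ S, ∑ y ∈ S, adj U x y

lemma neg_mem_steps {U : Finset (Fin d → ℤ)} {v : Fin d → ℤ} (h : v ∈ steps U) : -v ∈ steps U := by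
  unfold steps at *
  simp only [mem_union, mem_image] at *
  rcases h with h | ⟨u, hu, rfl⟩
  · exact Or.inr ⟨v, h, rfl⟩
  · left; simpa using hu

lemma zero_notMem_steps {U : Finset (Fin d → ℤ)} (h : (0 : Fin d → ℤ) ∉ U) :
    (0 : Fin d → ℤ) ∉ steps U := by
  unfold steps
  simp only [mem_union, mem_image, not_or]
  refine ⟨h, ?_⟩
  rintro ⟨u, hu, h0⟩
  exact h (by rwa [neg_eq_zero.mp h0] at hu)

lemma adj_comm (U : Finset (Fin d → ℤ)) (x y : Fin d → ℤ) : adj U x y = adj U y x := by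
  unfold adj
  congr 1
  apply propext
  constructor
  · intro h; have := neg_mem_steps h; rwa [neg_sub] at this
  · intro h; have := neg_mem_steps h; rwa [neg_sub] at this

lemma adj_le_one (U : Finset (Fin d → ℤ)) (x y : Fin d → ℤ) : adj U x y ≤ 1 := by
  unfold adj; split_ifs <;> simp

lemma adj_self {U : Finset (Fin d → ℤ)} (h : (0 : Fin d → ℤ) ∉ U) (x : Fin d → ℤ) :
    adj U x x = 0 := by
  unfold adj
  rw [sub_self, if_neg (zero_notMem_steps h)]

/-- inner edges and boundary edges together -/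
lemma inner_add_boundary (U S : Finset (Fin d → ℤ)) :
    inner U S + boundary U S = S.card * (steps U).card := by
  have h1 : inner U S = ((S ×ˢ steps U).filter (fun p => p.1 + p.2 ∈ S)).card := by
    unfold inner adj
    rw [← Finset.sum_product' S S (fun x y => if y - x ∈ steps U then 1 else 0)]
    rw [← Finset.card_filter]
    apply Finset.card_bij (fun p _ => (p.1, p.2 - p.1))
    · rintro ⟨x, y⟩ hp
      simp only [mem_filter, mem_product] at *
      refine ⟨⟨hp.1.1, hp.2⟩, ?_⟩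
      rw [add_sub_cancel]
      exact hp.1.2
    · rintro ⟨x, y⟩ _ ⟨x', y'⟩ _ h
      simp only [Prod.mk.injEq] at h
      obtain ⟨rfl, h2⟩ := h
      rw [sub_left_inj] at h2
      rw [h2]
    · rintro ⟨x, v⟩ hp
      simp only [mem_filter, mem_product] at hp
      refine ⟨(x, x + v), ?_, ?_⟩
      · simp only [mem_filter, mem_product, add_sub_cancel_left]
        exact ⟨⟨hp.1.1, hp.2⟩, hp.1.2⟩
      · simp
  rw [h1]
  unfold boundary
  rw [Finset.card_filter_add_card_filter_not, card_product]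

/-- In the graph every triangle has at most one common neighbour on it. -/
def Tri (V : Finset (Fin d → ℤ)) : Prop :=
  ∀ a ∈ V, ∀ b ∈ V, a - b ∈ V → ∀ x ∈ V, x - a ∈ V → x - b ∈ V →
    ∀ y ∈ V, y - a ∈ V → y - b ∈ V → x = y

lemma adj_eq_one {U : Finset (Fin d → ℤ)} {x y : Fin d → ℤ} : adj U x y = 1 ↔ y - x ∈ steps U := by
  unfold adj; split_ifs with h <;> simp [h]

/-- the number of neighbours of an outer vertex in a tetrahedron is at most two -/
lemma neighbours_le_two {U : Finset (Fin d → ℤ)} (hT : Tri (steps U)) {A : Finset (Fin d → ℤ)}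
    (hA : A.card = 4) (hcl : ∀ x ∈ A, ∀ y ∈ A, x ≠ y → y - x ∈ steps U) {c : Fin d → ℤ}
    (hc : c ∉ A) : ∑ x ∈ A, adj U x c ≤ 2 := by
  have h1 : ∑ x ∈ A, adj U x c = (A.filter (fun x => c - x ∈ steps U)).card := by
    unfold adj
    rw [Finset.card_filter]
  rw [h1]
  by_contra hcon
  push Not at hcon
  obtain ⟨p, hp, q, hq, r, hr, hpq, hpr, hqr⟩ := Finset.two_lt_card.mp hcon
  simp only [mem_filter] at hp hq hr
  have h3 : ({p, q, r} : Finset (Fin d → ℤ)).card = 3 := Finset.card_eq_three.mpr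
    ⟨p, q, r, hpq, hpr, hqr, rfl⟩
  obtain ⟨s, hs, hs'⟩ := Finset.exists_mem_notMem_of_card_lt_card
    (show ({p, q, r} : Finset (Fin d → ℤ)).card < A.card by omega)
  simp only [mem_insert, mem_singleton, not_or] at hs'
  have hx : c - p = s - p := by
    apply hT (q - p) (hcl p hp.1 q hq.1 hpq) (r - p) (hcl p hp.1 r hr.1 hpr)
    · rw [sub_sub_sub_cancel_right]
      exact hcl r hr.1 q hq.1 (Ne.symm hqr)
    · exact hp.2
    · rw [sub_sub_sub_cancel_right]; exact hq.2
    · rw [sub_sub_sub_cancel_right]; exact hr.2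
    · exact hcl p hp.1 s hs (Ne.symm hs'.1)
    · rw [sub_sub_sub_cancel_right]; exact hcl q hq.1 s hs (Ne.symm hs'.2.1)
    · rw [sub_sub_sub_cancel_right]; exact hcl r hr.1 s hs (Ne.symm hs'.2.2)
  rw [sub_left_inj] at hx
  exact hc (hx ▸ hs)

lemma diag_aux (S : Finset (Fin d → ℤ)) : ((S ×ˢ S).filter (fun p => p.1 = p.2)).card = S.card := by
  rw [← Finset.diag_card S]
  congr 1
  ext ⟨x, y⟩
  simp only [mem_filter, mem_product, Finset.mem_diag]
  constructor
  · rintro ⟨⟨h1, _⟩, h3⟩; exact ⟨h1, h3⟩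
  · rintro ⟨h1, h3⟩; subst h3; exact ⟨⟨h1, h1⟩, rfl⟩

lemma inner_le_offDiag {U : Finset (Fin d → ℤ)} (h0 : (0 : Fin d → ℤ) ∉ U)
    (S : Finset (Fin d → ℤ)) : inner U S + S.card ≤ S.card * S.card := by
  unfold inner
  rw [← Finset.sum_product' S S (fun x y => adj U x y)]
  have h1 : S.card = ∑ p ∈ S ×ˢ S, if p.1 = p.2 then 1 else 0 := by
    rw [← Finset.card_filter, diag_aux]
  have h2 : S.card * S.card = ∑ p ∈ S ×ˢ S, 1 := by
    simp [card_product]
  conv_lhs => rw [h1]
  rw [h2, ← Finset.sum_add_distrib]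
  apply Finset.sum_le_sum
  rintro ⟨x, y⟩ _
  by_cases hxy : x = y
  · subst hxy
    simp [adj_self h0]
  · simp only [hxy, if_false, add_zero]
    exact adj_le_one U x y

/-- a 4-set with 6 inner edges is a clique -/
lemma clique_of_inner {U : Finset (Fin d → ℤ)} (h0 : (0 : Fin d → ℤ) ∉ U)
    {A : Finset (Fin d → ℤ)} (hA : A.card = 4) (hin : 12 ≤ inner U A) :
    ∀ x ∈ A, ∀ y ∈ A, x ≠ y → y - x ∈ steps U := by
  intro x hx y hy hxy
  by_contra hcon
  have h1 : inner U A + 4 < 16 := by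
    unfold inner at *
    rw [← Finset.sum_product' A A (fun x y => adj U x y)]
    have h1 : 4 = ∑ p ∈ A ×ˢ A, if p.1 = p.2 then 1 else 0 := by
      rw [← Finset.card_filter, diag_aux, hA]
    have h2 : 16 = ∑ p ∈ A ×ˢ A, 1 := by
      simp [card_product, hA]
    conv_lhs => rw [h1]
    rw [h2, ← Finset.sum_add_distrib]
    apply Finset.sum_lt_sum
    · rintro ⟨x, y⟩ _
      by_cases hxy : x = y
      · subst hxy
        simp [adj_self h0]
      · simp only [hxy, if_false, add_zero]
        exact adj_le_one U x y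
    · refine ⟨(x, y), by simp [hx, hy], ?_⟩
      simp only [hxy, if_false, add_zero]
      unfold adj
      rw [if_neg hcon]
      exact one_pos
  omega

/-- the main counting step -/
lemma inner_six {U : Finset (Fin d → ℤ)} (h0 : (0 : Fin d → ℤ) ∉ U) (hT : Tri (steps U))
    {A B : Finset (Fin d → ℤ)} (hAB : A ⊆ B) (hA : A.card = 4) (hB : B.card = 6)
    (hin : 12 ≤ inner U A) : inner U B ≤ 22 := by
  have hcl := clique_of_inner h0 hA hin
  set C := B \ A with hC
  have hBC : B = A ∪ C := by rw [hC, Finset.union_sdiff_of_subset hAB]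
  have hdisj : Disjoint A C := Finset.disjoint_sdiff
  have hCc : C.card = 2 := by
    rw [hC, Finset.card_sdiff_of_subset hAB]; omega
  have hAA := inner_le_offDiag h0 A
  have hCC := inner_le_offDiag h0 C
  have hAC : ∑ x ∈ A, ∑ y ∈ C, adj U x y ≤ 4 := by
    rw [Finset.sum_comm]
    calc ∑ y ∈ C, ∑ x ∈ A, adj U x y ≤ ∑ y ∈ C, 2 := by
          apply Finset.sum_le_sum
          intro y hy
          exact neighbours_le_two hT hA hcl (Finset.mem_sdiff.mp hy).2
      _ = 4 := by simp [hCc]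
  have hCA : ∑ x ∈ C, ∑ y ∈ A, adj U x y ≤ 4 := by
    rw [Finset.sum_comm]
    simp_rw [adj_comm U]
    rw [Finset.sum_comm] at hAC
    rw [Finset.sum_comm]
    calc ∑ y ∈ C, ∑ x ∈ A, adj U x y ≤ ∑ y ∈ C, 2 := by
          apply Finset.sum_le_sum
          intro y hy
          exact neighbours_le_two hT hA hcl (Finset.mem_sdiff.mp hy).2
      _ = 4 := by simp [hCc]
  have hsum : inner U B = inner U A + (∑ x ∈ A, ∑ y ∈ C, adj U x y) +
      (∑ x ∈ C, ∑ y ∈ A, adj U x y) + inner U C := by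
    unfold inner
    rw [hBC, Finset.sum_union hdisj]
    simp_rw [Finset.sum_union hdisj]
    rw [Finset.sum_add_distrib, Finset.sum_add_distrib]
    ring
  rw [hsum]
  rw [hA] at hAA
  rw [hCc] at hCC
  omega

/-- Optimal sets of sizes `4` and `6` are never nested. -/
lemma no_nested {U : Finset (Fin d → ℤ)} (h0 : (0 : Fin d → ℤ) ∉ U) (hT : Tri (steps U))
    {K O : Finset (Fin d → ℤ)} (hK : K.card = 4) (hK' : 12 ≤ inner U K) (hO : O.card = 6)
    (hO' : 24 ≤ inner U O) {A B : Finset (Fin d → ℤ)} (hAB : A ⊆ B) (hA : A.card = 4)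
    (hB : B.card = 6) : boundary U K < boundary U A ∨ boundary U O < boundary U B := by
  by_contra hcon
  push Not at hcon
  have e1 := inner_add_boundary U K
  have e2 := inner_add_boundary U A
  have e3 := inner_add_boundary U O
  have e4 := inner_add_boundary U B
  rw [hK] at e1
  rw [hA] at e2
  rw [hO] at e3
  rw [hB] at e4
  have h1 : 12 ≤ inner U A := by omega
  have h2 := inner_six h0 hT hAB hA hB h1
  omega

end Pool.Agent.Lib.MP_602b76_co
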