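import Mathlib
import Pool.Agent.Lib.MP_602b76_co.Defs
import Pool.Agent.Lib.MP_602b76_co.Proof

/-!
# A generating set of `ℤ^(k+1)` without nested optimal sets
-/

namespace Pool.Agent.Lib.MP_602b76_co

open Finset

/-- the steps in the line, up to sign -/
def U1 : Finset ℤ := {1, 4, 6, 7, 10, 11}

/-- the steps in the line -/
def V1 : Finset ℤ := {1, 4, 6, 7, 10, 11, -1, -4, -6, -7, -10, -11}

variable {k : ℕ}

/-- the line in the first coordinate direction -/
def line (v : ℤ) : Fin (k + 1) → ℤ := Pi.single 0 v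

/-- the generating set of `ℤ^(k+1)` -/
def Ud (k : ℕ) : Finset (Fin (k + 1) → ℤ) :=
  U1.image line ∪ (univ.filter (fun i : Fin (k + 1) => i ≠ 0)).image (fun i => Pi.single i 1)

lemma line_zero_coord (v : ℤ) : (line v : Fin (k + 1) → ℤ) 0 = v := by simp [line]

lemma line_coord (v : ℤ) {i : Fin (k + 1)} (hi : i ≠ 0) : (line v : Fin (k + 1) → ℤ) i = 0 := by
  simp [line, hi]

lemma line_sub (v w : ℤ) : (line v - line w : Fin (k + 1) → ℤ) = line (v - w) := by
  unfold line
  rw [← Pi.single_sub]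

lemma line_injective : Function.Injective (line : ℤ → Fin (k + 1) → ℤ) := by
  intro a b h
  have := congrFun h 0
  rwa [line_zero_coord, line_zero_coord] at this

/-- on the line -/
def OnL (v : Fin (k + 1) → ℤ) : Prop := v 0 ∈ V1 ∧ ∀ i, i ≠ 0 → v i = 0

/-- a unit vector off the line -/
def OffL (v : Fin (k + 1) → ℤ) : Prop :=
  ∃ i, i ≠ 0 ∧ (v i = 1 ∨ v i = -1) ∧ ∀ j, j ≠ i → v j = 0

lemma U1_V1 {u : ℤ} (h : u ∈ U1) : u ∈ V1 ∧ -u ∈ V1 := by
  revert u
  decide

lemma V1_U1 {u : ℤ} (h : u ∈ V1) : u ∈ U1 ∨ -u ∈ U1 := by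
  revert u
  decide

lemma zero_V1 : (0 : ℤ) ∉ V1 := by decide

lemma mem_steps {v : Fin (k + 1) → ℤ} (h : v ∈ steps (Ud k)) : OnL v ∨ OffL v := by
  unfold steps Ud at h
  simp only [mem_union, mem_image, mem_filter, mem_univ, true_and] at h
  rcases h with (⟨u, hu, rfl⟩ | ⟨i, hi, rfl⟩) | ⟨w, (⟨u, hu, rfl⟩ | ⟨i, hi, rfl⟩), rfl⟩
  · left
    exact ⟨by rw [line_zero_coord]; exact (U1_V1 hu).1, fun i hi => line_coord u hi⟩
  · right
    exact ⟨i, hi, by simp, fun j hj => by simp [hj]⟩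
  · left
    refine ⟨?_, fun i hi => ?_⟩
    · rw [Pi.neg_apply, line_zero_coord]; exact (U1_V1 hu).2
    · rw [Pi.neg_apply, line_coord u hi, neg_zero]
  · right
    exact ⟨i, hi, by simp, fun j hj => by simp [hj]⟩

lemma line_mem_steps {u : ℤ} (h : u ∈ V1) : (line u : Fin (k + 1) → ℤ) ∈ steps (Ud k) := by
  unfold steps Ud
  simp only [mem_union, mem_image, mem_filter, mem_univ, true_and]
  rcases V1_U1 h with h | h
  · exact Or.inl (Or.inl ⟨u, h, rfl⟩)
  · refine Or.inr ⟨line (-u), Or.inl ⟨-u, h, rfl⟩, ?_⟩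
    unfold line
    rw [← Pi.single_neg, neg_neg]

lemma zero_notMem : (0 : Fin (k + 1) → ℤ) ∉ Ud k := by
  intro h
  have h1 : (0 : Fin (k + 1) → ℤ) ∈ steps (Ud k) := by
    unfold steps
    exact mem_union_left _ h
  rcases mem_steps h1 with h | ⟨i, _, h, _⟩
  · exact zero_V1 h.1
  · simp at h

lemma onL_of {a b : Fin (k + 1) → ℤ} (ha : a ∈ steps (Ud k)) (hb : b ∈ steps (Ud k))
    (hab : a - b ∈ steps (Ud k)) : OnL a := by
  rcases mem_steps ha with h | ⟨i, hi, hai, haj⟩
  · exact h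
  exfalso
  have ha0 : a 0 = 0 := haj 0 (Ne.symm hi)
  rcases mem_steps hb with ⟨hb0, hbj⟩ | ⟨j, hj, hbj, hbl⟩
  · have hbi : b i = 0 := hbj i hi
    have hb0' : b 0 ≠ 0 := fun h => zero_V1 (h ▸ hb0)
    rcases mem_steps hab with ⟨_, h2⟩ | ⟨l, hl, _, h3⟩
    · have := h2 i hi
      rw [Pi.sub_apply] at this
      omega
    · by_cases hli : l = i
      · have := h3 0 (by rw [hli]; exact Ne.symm hi)
        rw [Pi.sub_apply] at this
        omega
      · have := h3 i (Ne.symm hli)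
        rw [Pi.sub_apply] at this
        omega
  · by_cases hji : j = i
    · subst hji
      have hb0 : b 0 = 0 := hbl 0 (Ne.symm hj)
      rcases mem_steps hab with ⟨h1, _⟩ | ⟨l, hl, h3, _⟩
      · rw [Pi.sub_apply, ha0, hb0, sub_zero] at h1
        exact zero_V1 h1
      · by_cases hlj : l = j
        · subst hlj
          rw [Pi.sub_apply] at h3
          omega
        · have e1 := haj l hlj
          have e2 := hbl l hlj
          rw [Pi.sub_apply] at h3
          omega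
    · have hbi : b i = 0 := hbl i (Ne.symm hji)
      have haj' : a j = 0 := haj j hji
      rcases mem_steps hab with ⟨_, h2⟩ | ⟨l, hl, _, h3⟩
      · have := h2 i hi
        rw [Pi.sub_apply] at this
        omega
      · by_cases hli : l = i
        · have := h3 j (by rw [hli]; exact hji)
          rw [Pi.sub_apply] at this
          omega
        · have := h3 i (Ne.symm hli)
          rw [Pi.sub_apply] at this
          omega

lemma onL_sub {a b : Fin (k + 1) → ℤ} (ha : OnL a) (hb : OnL b)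
    (hab : a - b ∈ steps (Ud k)) : a 0 - b 0 ∈ V1 := by
  rcases mem_steps hab with ⟨h1, _⟩ | ⟨l, hl, h3, _⟩
  · exact h1
  · exfalso
    have e1 := ha.2 l hl
    have e2 := hb.2 l hl
    rw [Pi.sub_apply] at h3
    omega

set_option maxRecDepth 100000 in
lemma tri_V1 : ∀ a ∈ V1, ∀ b ∈ V1, a - b ∈ V1 → ∀ x ∈ V1, x - a ∈ V1 → x - b ∈ V1 →
    ∀ y ∈ V1, y - a ∈ V1 → y - b ∈ V1 → x = y := by
  decide

lemma tri_Ud : Tri (steps (Ud k)) := by
  intro a ha b hb hab x hx hxa hxb y hy hya hyb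
  have hba : b - a ∈ steps (Ud k) := by
    have := neg_mem_steps hab
    rwa [neg_sub] at this
  have la := onL_of ha hb hab
  have lb := onL_of hb ha hba
  have lx := onL_of hx ha hxa
  have ly := onL_of hy ha hya
  have h := tri_V1 (a 0) la.1 (b 0) lb.1 (onL_sub la lb hab) (x 0) lx.1 (onL_sub lx la hxa)
    (onL_sub lx lb hxb) (y 0) ly.1 (onL_sub ly la hya) (onL_sub ly lb hyb)
  funext i
  by_cases hi : i = 0
  · subst hi; exact h
  · rw [lx.2 i hi, ly.2 i hi]

lemma closure_Ud : AddSubgroup.closure (Ud k : Set (Fin (k + 1) → ℤ)) = ⊤ := by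
  rw [eq_top_iff]
  intro v _
  have h1 : ∀ i : Fin (k + 1), (Pi.single i 1 : Fin (k + 1) → ℤ) ∈
      AddSubgroup.closure (Ud k : Set (Fin (k + 1) → ℤ)) := by
    intro i
    apply AddSubgroup.subset_closure
    unfold Ud
    simp only [coe_union, coe_image, Set.mem_union, Set.mem_image, mem_coe, mem_filter, mem_univ,
      true_and]
    by_cases hi : i = 0
    · left
      exact ⟨1, by decide, by rw [hi]; rfl⟩
    · right
      exact ⟨i, hi, rfl⟩
  have h2 : v = ∑ i, v i • (Pi.single i 1 : Fin (k + 1) → ℤ) := by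
    funext j
    simp [Finset.sum_apply, Pi.single_apply]
  rw [h2]
  exact AddSubgroup.sum_mem _ (fun i _ => AddSubgroup.zsmul_mem _ (h1 i) (v i))

lemma inner_line (S : Finset ℤ) :
    ∑ x ∈ S, ∑ y ∈ S, (if y - x ∈ V1 then 1 else 0) ≤ inner (Ud k) (S.image line) := by
  unfold inner
  rw [Finset.sum_image (fun x _ y _ h => line_injective h)]
  apply Finset.sum_le_sum
  intro x _
  rw [Finset.sum_image (fun x _ y _ h => line_injective h)]
  apply Finset.sum_le_sum
  intro y _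
  split_ifs with h
  · unfold adj
    rw [line_sub, if_pos (line_mem_steps h)]
  · exact Nat.zero_le _

/-- the tetrahedron -/
def tetra : Finset ℤ := {0, 1, 7, 11}

/-- the octahedron -/
def octa : Finset ℤ := {1, 7, 11, 8, 12, 18}

lemma tetra_inner : 12 ≤ inner (Ud k) (tetra.image line) :=
  le_trans (by decide) (inner_line tetra)

lemma octa_inner : 24 ≤ inner (Ud k) (octa.image line) :=
  le_trans (by decide) (inner_line octa)

lemma tetra_card : (tetra.image (line : ℤ → Fin (k + 1) → ℤ)).card = 4 := by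
  rw [Finset.card_image_of_injective _ line_injective]
  decide

lemma octa_card : (octa.image (line : ℤ → Fin (k + 1) → ℤ)).card = 6 := by
  rw [Finset.card_image_of_injective _ line_injective]
  decide

/-- no optimal set of size `4` lies in an optimal set of size `6` -/
theorem not_nested (k : ℕ) (A B : Finset (Fin (k + 1) → ℤ)) (hAB : A ⊆ B) (hA : A.card = 4)
    (hB : B.card = 6) : ¬ (Optimal (Ud k) A ∧ Optimal (Ud k) B) := by
  rintro ⟨h1, h2⟩
  rcases no_nested (zero_notMem) tri_Ud tetra_card tetra_inner octa_card octa_inner hAB hA hB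
    with h | h
  · exact absurd (h1 _ (by rw [tetra_card, hA])) (not_le.mpr h)
  · exact absurd (h2 _ (by rw [octa_card, hB])) (not_le.mpr h)

theorem main : ∀ d : ℕ, 1 ≤ d → ∃ U : Finset (Fin d → ℤ), (0 : Fin d → ℤ) ∉ U ∧
    AddSubgroup.closure (U : Set (Fin d → ℤ)) = ⊤ ∧
    ∀ A B : Finset (Fin d → ℤ), A ⊆ B → A.card = 4 → B.card = 6 →
      ¬ (Optimal U A ∧ Optimal U B) := by
  intro d hd
  obtain ⟨k, rfl⟩ : ∃ k, d = k + 1 := ⟨d - 1, by omega⟩
  exact ⟨Ud k, zero_notMem, closure_Ud, fun A B hAB hA hB => not_nested k A B hAB hA hB⟩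

theorem no_enumeration : ∀ d : ℕ, 1 ≤ d → ∃ U : Finset (Fin d → ℤ), (0 : Fin d → ℤ) ∉ U ∧
    AddSubgroup.closure (U : Set (Fin d → ℤ)) = ⊤ ∧
    ∀ e : ℕ ≃ (Fin d → ℤ), ∃ n, 1 ≤ n ∧ n ≤ 6 ∧ ¬ Optimal U ((Finset.range n).image ⇑e) := by
  intro d hd
  obtain ⟨U, h0, hU, h⟩ := main d hd
  refine ⟨U, h0, hU, fun e => ?_⟩
  have c : ∀ n, ((Finset.range n).image ⇑e).card = n := fun n => by
    rw [Finset.card_image_of_injective _ e.injective, Finset.card_range]
  have hsub : (Finset.range 4).image ⇑e ⊆ (Finset.range 6).image ⇑e :=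
    Finset.image_subset_image (Finset.range_subset_range.mpr (by norm_num))
  by_cases h4 : Optimal U ((Finset.range 4).image ⇑e)
  · refine ⟨6, by norm_num, le_rfl, fun h6 => ?_⟩
    exact h _ _ hsub (c 4) (c 6) ⟨h4, h6⟩
  · exact ⟨4, by norm_num, by norm_num, h4⟩

theorem every_dimension : ∀ d : ℕ, 2 ≤ d → ∃ U : Finset (Fin d → ℤ), (0 : Fin d → ℤ) ∉ U ∧
    AddSubgroup.closure (U : Set (Fin d → ℤ)) = ⊤ ∧
    (∀ A B : Finset (Fin d → ℤ), A ⊆ B → A.card = 4 → B.card = 6 →
      ¬ (Optimal U A ∧ Optimal U B)) ∧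
    ¬ ∃ e : ℕ ≃ (Fin d → ℤ), ∀ n, 1 ≤ n → Optimal U ((Finset.range n).image ⇑e) := by
  intro d hd
  obtain ⟨U, h0, hU, h⟩ := main d (by omega)
  refine ⟨U, h0, hU, h, ?_⟩
  rintro ⟨e, he⟩
  have c : ∀ n, ((Finset.range n).image ⇑e).card = n := fun n => by
    rw [Finset.card_image_of_injective _ e.injective, Finset.card_range]
  have hsub : (Finset.range 4).image ⇑e ⊆ (Finset.range 6).image ⇑e :=
    Finset.image_subset_image (Finset.range_subset_range.mpr (by norm_num))
  exact h _ _ hsub (c 4) (c 6) ⟨he 4 (by norm_num), he 6 (by norm_num)⟩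

end Pool.Agent.Lib.MP_602b76_co
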